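import Pool.Agent.H671R2.ZDefs

/-!
# Definitions: core, critical independent sets, nucleus
-/

set_option autoImplicit false

namespace Pool.Agent.Helper15K9.Core

open Classical

variable {V : Type*} [Fintype V]

/-- `I` is an independent set of `G`: no two of its vertices are adjacent. -/
def Indep (G : SimpleGraph V) (I : Finset V) : Prop := ∀ u ∈ I, ∀ v ∈ I, ¬ G.Adj u v

/-- `N(X)`: the set of the vertices adjacent to some vertex of `X`. -/
noncomputable def nbhd (G : SimpleGraph V) (X : Finset V) : Finset V :=
  Finset.univ.filter fun w => ∃ x ∈ X, G.Adj x w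

/-- `d(X) = |X| - |N(X)|`. -/
noncomputable def diff (G : SimpleGraph V) (X : Finset V) : ℤ := (X.card : ℤ) - (nbhd G X).card

/-- `I` is a maximum independent set. -/
def IsMaxIndep (G : SimpleGraph V) (I : Finset V) : Prop :=
  Indep G I ∧ ∀ J, Indep G J → J.card ≤ I.card

/-- The core: the intersection of all maximum independent sets. -/
def core (G : SimpleGraph V) : Set V := {v | ∀ I, IsMaxIndep G I → v ∈ I}

/-- `I` is a critical independent set: `d(I) ≥ d(J)` for every independent set `J`. -/
def IsCritical (G : SimpleGraph V) (I : Finset V) : Prop :=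
  Indep G I ∧ ∀ J, Indep G J → diff G J ≤ diff G I

/-- `I` is a maximum critical independent set: a critical independent set of largest
cardinality. -/
def IsMaxCritical (G : SimpleGraph V) (I : Finset V) : Prop :=
  IsCritical G I ∧ ∀ J, IsCritical G J → J.card ≤ I.card

/-- The nucleus: the intersection of all maximum critical independent sets. -/
def nucleus (G : SimpleGraph V) : Set V := {v | ∀ I, IsMaxCritical G I → v ∈ I}

/-- The decision problem: given (the adjacency matrix of) a finite simple graph `G`, is
`core(G) = nucleus(G)`? -/
def CoreEqNucleus (M : List (List Bool)) : Prop :=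
  ∃ (n : ℕ) (G : SimpleGraph (Fin n)), Pool.Agent.NPC.R671.adjMatrix G = M ∧ core G = nucleus G

end Pool.Agent.Helper15K9.Core
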