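import Pool.Agent.Helper15K9.Core.Defs

/-!
# The graphs used in the reductions, and their cores and nuclei
-/

set_option autoImplicit false

namespace Pool.Agent.Helper15K9.Core

open Classical

section Nucleus

variable {V : Type*} [Fintype V] {G : SimpleGraph V}

theorem diff_neg {C : Finset V} (hC : ∀ c ∈ C, ∀ v, v ≠ c → G.Adj c v) (h1 : Cᶜ.card < C.card)
    (h3 : 3 ≤ Fintype.card V) {I : Finset V} (hI : Indep G I) (hne : I.Nonempty) :
    diff G I < 0 := by
  by_cases h : ∃ c ∈ C, c ∈ I
  · obtain ⟨c, hc, hcI⟩ := h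
    have e1 : I = {c} := by
      ext v
      rw [Finset.mem_singleton]
      constructor
      · intro hv
        by_contra hne
        exact hI c hcI v hv (hC c hc v hne)
      · rintro rfl
        exact hcI
    have e2 : Finset.univ.erase c ⊆ nbhd G I := by
      intro v hv
      rw [Finset.mem_erase] at hv
      simp only [nbhd, Finset.mem_filter, Finset.mem_univ, true_and]
      exact ⟨c, hcI, hC c hc v hv.1⟩
    have e3 := Finset.card_le_card e2
    rw [Finset.card_erase_of_mem (Finset.mem_univ _), Finset.card_univ] at e3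
    have e4 : I.card = 1 := by rw [e1]; exact Finset.card_singleton c
    unfold diff
    omega
  · push Not at h
    obtain ⟨x, hx⟩ := hne
    have e1 : C ⊆ nbhd G I := by
      intro c hc
      simp only [nbhd, Finset.mem_filter, Finset.mem_univ, true_and]
      refine ⟨x, hx, (hC c hc x ?_).symm⟩
      rintro rfl
      exact h x hc hx
    have e2 : I ⊆ Cᶜ := by
      intro v hv
      rw [Finset.mem_compl]
      exact fun hvC => h v hvC hv
    have e3 := Finset.card_le_card e1
    have e4 := Finset.card_le_card e2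
    unfold diff
    omega

theorem indep_empty : Indep G ∅ := fun u hu => by simp at hu

theorem diff_empty : diff G ∅ = 0 := by
  simp [diff, nbhd]

theorem nucleus_empty {C : Finset V} (hC : ∀ c ∈ C, ∀ v, v ≠ c → G.Adj c v)
    (h1 : Cᶜ.card < C.card) (h3 : 3 ≤ Fintype.card V) : nucleus G = ∅ := by
  have hle : ∀ J, Indep G J → diff G J ≤ diff G ∅ := by
    intro J hJ
    rcases J.eq_empty_or_nonempty with rfl | hne
    · exact le_rfl
    · rw [diff_empty]
      exact (diff_neg hC h1 h3 hJ hne).le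
  have hcrit : IsCritical G (∅ : Finset V) := ⟨indep_empty, hle⟩
  have hmax : IsMaxCritical G (∅ : Finset V) := by
    refine ⟨hcrit, fun J hJ => ?_⟩
    rcases J.eq_empty_or_nonempty with rfl | hne
    · exact le_rfl
    · have := hJ.2 ∅ indep_empty
      rw [diff_empty] at this
      have := diff_neg hC h1 h3 hJ.1 hne
      omega
  ext v
  simp only [nucleus, Set.mem_ofPred_eq, Set.mem_empty_iff_false, iff_false]
  intro h
  have := h ∅ hmax
  simp at this

end Nucleus

/-- Clauses with three literals. -/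
abbrev C3 := (Bool × ℕ) × (Bool × ℕ) × (Bool × ℕ)

/-- The labels of the vertices. -/
abbrev Lb := ℕ × ℕ × ℕ

/-- The `t`-th literal of a clause. -/
def pick (c : C3) (t : ℕ) : Bool × ℕ := if t = 0 then c.1 else if t = 1 then c.2.1 else c.2.2

/-- The literals `a`, `b` are complementary. -/
def compl (a b : Bool × ℕ) : Bool := decide (a.2 = b.2) && decide (a.1 ≠ b.1)

/-- The literals at the positions `x` and `y` are complementary. -/
def confl (φ : List C3) (x y : ℕ × ℕ) : Bool :=
  (φ[x.1]?).elim false fun c => (φ[y.1]?).elim false fun d => compl (pick c x.2) (pick d y.2)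

/-- Adjacency of labels. -/
def ad (φ : List C3) (x y : Lb) : Bool :=
  decide (x.1 ≠ y.1) || ((decide (x.2.1 = y.2.1) && decide (x.2.2 ≠ y.2.2)) ||
    ((decide (x.1 = 0 ∧ y.1 = 0) && confl φ x.2 y.2) || (decide (x.1 = 2) && decide (x ≠ y))))

/-- The list of the labels of the vertices. -/
def vs (φ : List C3) (p q : ℕ) : List Lb :=
  ((List.range φ.length).flatMap (fun j => (List.range 3).map (fun t => ((0, j, t) : Lb)))) ++
  ([((0, φ.length, 0) : Lb)] ++
  (((List.range p).flatMap (fun j => (List.range q).map (fun s => ((1, j, s) : Lb)))) ++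
  (List.range (3 * φ.length + 2 + p * q)).map (fun i => ((2, i, 0) : Lb))))

theorem mem_vs (φ : List C3) (p q : ℕ) (x : Lb) : x ∈ vs φ p q ↔
    (x.1 = 0 ∧ ((x.2.1 < φ.length ∧ x.2.2 < 3) ∨ (x.2.1 = φ.length ∧ x.2.2 = 0))) ∨
    (x.1 = 1 ∧ x.2.1 < p ∧ x.2.2 < q) ∨
    (x.1 = 2 ∧ x.2.1 < 3 * φ.length + 2 + p * q ∧ x.2.2 = 0) := by
  obtain ⟨a, b, c⟩ := x
  simp only [vs, List.mem_append, List.mem_flatMap, List.mem_map, List.mem_range,
    List.mem_singleton, Prod.mk.injEq]
  constructor
  · rintro (⟨j, hj, t, ht, rfl, rfl, rfl⟩ | ⟨rfl, rfl, rfl⟩ | ⟨j, hj, t, ht, rfl, rfl, rfl⟩ |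
      ⟨i, hi, rfl, rfl, rfl⟩)
    · exact Or.inl ⟨rfl, Or.inl ⟨hj, ht⟩⟩
    · exact Or.inl ⟨rfl, Or.inr ⟨rfl, rfl⟩⟩
    · exact Or.inr (Or.inl ⟨rfl, hj, ht⟩)
    · exact Or.inr (Or.inr ⟨rfl, hi, rfl⟩)
  · rintro (⟨rfl, ⟨h1, h2⟩ | ⟨rfl, rfl⟩⟩ | ⟨rfl, h1, h2⟩ | ⟨rfl, h1, rfl⟩)
    · exact Or.inl ⟨b, h1, c, h2, rfl, rfl, rfl⟩
    · exact Or.inr (Or.inl ⟨rfl, rfl, rfl⟩)
    · exact Or.inr (Or.inr (Or.inl ⟨b, h1, c, h2, rfl, rfl, rfl⟩))
    · exact Or.inr (Or.inr (Or.inr ⟨b, h1, rfl, rfl, rfl⟩))

theorem ad_symm (φ : List C3) (x y : Lb) : ad φ x y = ad φ y x := by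
  have h : confl φ x.2 y.2 = confl φ y.2 x.2 := by
    unfold confl
    rcases h1 : φ[x.2.1]? with _ | c <;> rcases h2 : φ[y.2.1]? with _ | d
    · rfl
    · rfl
    · rfl
    · simp only [Option.elim]
      unfold compl
      congr 1
      · rw [decide_eq_decide]; exact eq_comm
      · rw [decide_eq_decide]; exact ne_comm
  unfold ad
  rw [h]
  by_cases h0 : x.1 = y.1
  · have e1 : decide (x.1 ≠ y.1) = decide (y.1 ≠ x.1) := by rw [decide_eq_decide]; exact ne_comm
    have e2 : decide (x.2.1 = y.2.1) = decide (y.2.1 = x.2.1) := by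
      rw [decide_eq_decide]; exact eq_comm
    have e3 : decide (x.2.2 ≠ y.2.2) = decide (y.2.2 ≠ x.2.2) := by
      rw [decide_eq_decide]; exact ne_comm
    have e4 : decide (x.1 = 0 ∧ y.1 = 0) = decide (y.1 = 0 ∧ x.1 = 0) := by
      rw [decide_eq_decide]; exact and_comm
    have e5 : decide (x ≠ y) = decide (y ≠ x) := by rw [decide_eq_decide]; exact ne_comm
    have e6 : decide (x.1 = 2) = decide (y.1 = 2) := by rw [h0]
    rw [e1, e2, e3, e4, e5, e6]
  · have e1 : decide (x.1 ≠ y.1) = true := decide_eq_true h0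
    have e2 : decide (y.1 ≠ x.1) = true := decide_eq_true (Ne.symm h0)
    rw [e1, e2, Bool.true_or, Bool.true_or]

theorem confl_self (φ : List C3) (x : ℕ × ℕ) : confl φ x x = false := by
  unfold confl compl
  rcases h1 : φ[x.1]? with _ | c
  · rfl
  · simp

theorem ad_irrefl (φ : List C3) (x : Lb) : ad φ x x = false := by
  unfold ad
  rw [confl_self]
  simp

/-- The vertices of `G` are labelled bijectively by `vs φ p q`, adjacency is `ad φ`. -/
structure Rep {V : Type*} (G : SimpleGraph V) (c : V → Lb) (φ : List C3) (p q : ℕ) : Prop where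
  inj : Function.Injective c
  mem : ∀ x, x ∈ vs φ p q ↔ ∃ v, c v = x
  adj : ∀ u v, G.Adj u v ↔ ad φ (c u) (c v) = true

section Main

variable {V : Type*} [Fintype V] {G : SimpleGraph V} {c : V → Lb} {φ : List C3} {p q : ℕ}

/-- The vertices with labels of kind `k`. -/
noncomputable def kind (V : Type*) [Fintype V] (c : V → Lb) (k : ℕ) : Finset V :=
  Finset.univ.filter fun v => (c v).1 = k

theorem Rep.adj_of_kind_ne (h : Rep G c φ p q) {u v : V} (huv : (c u).1 ≠ (c v).1) :
    G.Adj u v := by
  rw [h.adj]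
  unfold ad
  rw [decide_eq_true huv]
  rfl

theorem Rep.kind_lt (h : Rep G c φ p q) (v : V) : (c v).1 = 0 ∨ (c v).1 = 1 ∨ (c v).1 = 2 := by
  have := (h.mem (c v)).2 ⟨v, rfl⟩
  rw [mem_vs] at this
  tauto

/-- An independent set lies within one kind. -/
theorem Rep.indep_kind (h : Rep G c φ p q) {I : Finset V} (hI : Indep G I) :
    ∃ k, (k = 0 ∨ k = 1 ∨ k = 2) ∧ ∀ v ∈ I, (c v).1 = k := by
  rcases I.eq_empty_or_nonempty with rfl | ⟨x, hx⟩
  · exact ⟨0, Or.inl rfl, fun v hv => by simp at hv⟩
  · refine ⟨(c x).1, h.kind_lt x, fun v hv => ?_⟩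
    by_contra hne
    exact hI v hv x hx (h.adj_of_kind_ne hne)

theorem Rep.adj_two (h : Rep G c φ p q) {u v : V} (hu : (c u).1 = 2) (huv : v ≠ u) :
    G.Adj u v := by
  by_cases hv : (c u).1 = (c v).1
  · rw [h.adj]
    unfold ad
    have e1 : decide (c u ≠ c v) = true := decide_eq_true (fun he => huv (h.inj he).symm)
    rw [e1, hu]
    simp
  · exact h.adj_of_kind_ne hv

theorem Rep.card_two (h : Rep G c φ p q) {I : Finset V} (hI : Indep G I)
    (h2 : ∀ v ∈ I, (c v).1 = 2) : I.card ≤ 1 := by
  rw [Finset.card_le_one]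
  intro a ha b hb
  by_contra hne
  exact hI a ha b hb (h.adj_two (h2 a ha) (Ne.symm hne))

/-- within one kind below two, the middle coordinate is injective on independent sets -/
theorem Rep.injOn (h : Rep G c φ p q) {I : Finset V} (hI : Indep G I) {k : ℕ}
    (hk : ∀ v ∈ I, (c v).1 = k) : Set.InjOn (fun v => (c v).2.1) (I : Set V) := by
  intro u hu v hv huv
  simp only at huv
  have hnadj := hI u hu v hv
  rw [h.adj] at hnadj
  unfold ad at hnadj
  simp only [Bool.or_eq_true, Bool.and_eq_true, decide_eq_true_eq, not_or, not_and, not_not]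
    at hnadj
  have h1 := hnadj.2.1 huv
  apply h.inj
  refine Prod.ext ?_ (Prod.ext huv h1)
  rw [hk u hu, hk v hv]

theorem Rep.image_zero (h : Rep G c φ p q) {I : Finset V} (h0 : ∀ v ∈ I, (c v).1 = 0) :
    I.image (fun v => (c v).2.1) ⊆ Finset.range (φ.length + 1) := by
  intro j hj
  rw [Finset.mem_image] at hj
  obtain ⟨v, hv, rfl⟩ := hj
  rw [Finset.mem_range]
  have h1 := (h.mem (c v)).2 ⟨v, rfl⟩
  rw [mem_vs] at h1
  have h2 := h0 v hv
  omega

theorem Rep.image_one (h : Rep G c φ p q) {I : Finset V} (h1 : ∀ v ∈ I, (c v).1 = 1) :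
    I.image (fun v => (c v).2.1) ⊆ Finset.range p := by
  intro j hj
  rw [Finset.mem_image] at hj
  obtain ⟨v, hv, rfl⟩ := hj
  rw [Finset.mem_range]
  have h3 := (h.mem (c v)).2 ⟨v, rfl⟩
  rw [mem_vs] at h3
  have h2 := h1 v hv
  omega

theorem Rep.card_zero (h : Rep G c φ p q) {I : Finset V} (hI : Indep G I)
    (h0 : ∀ v ∈ I, (c v).1 = 0) : I.card ≤ φ.length + 1 := by
  have h2 := Finset.card_le_card (h.image_zero h0)
  rw [Finset.card_image_of_injOn (h.injOn hI h0), Finset.card_range] at h2
  exact h2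

theorem Rep.card_one (h : Rep G c φ p q) {I : Finset V} (hI : Indep G I)
    (h1 : ∀ v ∈ I, (c v).1 = 1) : I.card ≤ p := by
  have h2 := Finset.card_le_card (h.image_one h1)
  rw [Finset.card_image_of_injOn (h.injOn hI h1), Finset.card_range] at h2
  exact h2

theorem Rep.full_zero (h : Rep G c φ p q) {I : Finset V} (hI : Indep G I)
    (h0 : ∀ v ∈ I, (c v).1 = 0) (hcard : φ.length + 1 ≤ I.card) {j : ℕ} (hj : j ≤ φ.length) :
    ∃ v ∈ I, (c v).2.1 = j := by
  have h2 := Finset.eq_of_subset_of_card_le (h.image_zero h0) (by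
    rw [Finset.card_image_of_injOn (h.injOn hI h0), Finset.card_range]
    exact hcard)
  have h3 : j ∈ I.image (fun v => (c v).2.1) := by
    rw [h2, Finset.mem_range]
    omega
  simpa [Finset.mem_image] using h3

theorem Rep.full_one (h : Rep G c φ p q) {I : Finset V} (hI : Indep G I)
    (h1 : ∀ v ∈ I, (c v).1 = 1) (hcard : p ≤ I.card) {j : ℕ} (hj : j < p) :
    ∃ v ∈ I, (c v).2.1 = j := by
  have h2 := Finset.eq_of_subset_of_card_le (h.image_one h1) (by
    rw [Finset.card_image_of_injOn (h.injOn hI h1), Finset.card_range]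
    exact hcard)
  have h3 : j ∈ I.image (fun v => (c v).2.1) := by
    rw [h2, Finset.mem_range]
    omega
  simpa [Finset.mem_image] using h3

/-- Satisfiability, with positions. -/
def Satis (φ : List C3) : Prop :=
  ∃ τ : ℕ → Bool, ∀ j, ∀ hj : j < φ.length, ∃ t < 3, τ (pick φ[j] t).2 = (pick φ[j] t).1

theorem Rep.satis (h : Rep G c φ p q) {I : Finset V} (hI : Indep G I)
    (h0 : ∀ v ∈ I, (c v).1 = 0) (hcard : φ.length + 1 ≤ I.card) : Satis φ := by
  refine ⟨fun i => decide (∃ v ∈ I, ∃ hv : (c v).2.1 < φ.length,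
    pick φ[(c v).2.1] (c v).2.2 = (true, i)), fun j hj => ?_⟩
  obtain ⟨v, hv, rfl⟩ := h.full_zero hI h0 hcard hj.le
  have h1 := (h.mem (c v)).2 ⟨v, rfl⟩
  rw [mem_vs] at h1
  have h2 := h0 v hv
  refine ⟨(c v).2.2, by omega, ?_⟩
  rcases hb : (pick φ[(c v).2.1] (c v).2.2).1 with _ | _
  · simp only [decide_eq_false_iff_not]
    rintro ⟨u, hu, hul, hlit⟩
    apply hI u hu v hv
    rw [h.adj]
    unfold ad
    have e1 : confl φ (c u).2 (c v).2 = true := by
      unfold confl
      rw [List.getElem?_eq_getElem hul, List.getElem?_eq_getElem hj]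
      simp only [Option.elim]
      unfold compl
      rw [hlit, hb]
      simp
    rw [e1]
    have e2 : decide ((c u).1 = 0 ∧ (c v).1 = 0) = true := decide_eq_true ⟨h0 u hu, h2⟩
    rw [e2]
    simp
  · simp only [decide_eq_true_eq]
    exact ⟨v, hv, hj, Prod.ext hb rfl⟩

/-- the set of the vertices with labels in a list -/
noncomputable def pre (V : Type*) [Fintype V] (c : V → Lb) (T : Finset Lb) : Finset V :=
  Finset.univ.filter fun v => c v ∈ T

theorem Rep.card_pre (h : Rep G c φ p q) {T : Finset Lb} (hT : ∀ x ∈ T, x ∈ vs φ p q) :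
    (pre V c T).card = T.card := by
  have h1 : (pre V c T).image c = T := by
    ext x
    simp only [pre, Finset.mem_image, Finset.mem_filter, Finset.mem_univ, true_and]
    constructor
    · rintro ⟨v, hv, rfl⟩
      exact hv
    · intro hx
      obtain ⟨v, rfl⟩ := (h.mem x).1 (hT x hx)
      exact ⟨v, hx, rfl⟩
  rw [← Finset.card_image_of_injective _ h.inj, h1]

/-- the labels of the set `B_s` -/
def Bs (p s : ℕ) : Finset Lb := (Finset.range p).image fun j => (1, j, s)

theorem card_Bs (p s : ℕ) : (Bs p s).card = p := by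
  unfold Bs
  rw [Finset.card_image_of_injective _ (fun a b hab => by simpa using hab), Finset.card_range]

theorem Bs_mem {p q s : ℕ} (hs : s < q) (φ : List C3) : ∀ x ∈ Bs p s, x ∈ vs φ p q := by
  intro x hx
  simp only [Bs, Finset.mem_image, Finset.mem_range] at hx
  obtain ⟨j, hj, rfl⟩ := hx
  rw [mem_vs]
  exact Or.inr (Or.inl ⟨rfl, hj, hs⟩)

theorem Rep.indep_Bs (h : Rep G c φ p q) (s : ℕ) : Indep G (pre V c (Bs p s)) := by
  intro u hu v hv huv
  simp only [pre, Bs, Finset.mem_filter, Finset.mem_univ, true_and, Finset.mem_image,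
    Finset.mem_range] at hu hv
  obtain ⟨j, -, hj⟩ := hu
  obtain ⟨k, -, hk⟩ := hv
  rw [h.adj, ← hj, ← hk] at huv
  simp [ad] at huv

theorem Rep.card_pre_Bs (h : Rep G c φ p q) {s : ℕ} (hs : s < q) :
    (pre V c (Bs p s)).card = p := by
  rw [h.card_pre (Bs_mem hs φ), card_Bs]

/-- a satisfying assignment gives an independent set of the first kind -/
theorem Rep.exists_A (h : Rep G c φ p q) (hs : Satis φ) :
    ∃ I : Finset V, Indep G I ∧ (∀ v ∈ I, (c v).1 = 0) ∧ I.card = φ.length + 1 := by
  obtain ⟨τ, hτ⟩ := hs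
  have h1 : ∀ j, ∃ t, (j < φ.length → t < 3) ∧ (j = φ.length → t = 0) ∧
      ∀ hj : j < φ.length, τ (pick φ[j] t).2 = (pick φ[j] t).1 := by
    intro j
    by_cases hj : j < φ.length
    · obtain ⟨t, ht, ht2⟩ := hτ j hj
      exact ⟨t, fun _ => ht, fun h => by omega, fun _ => ht2⟩
    · exact ⟨0, fun _ => by omega, fun _ => rfl, fun h => absurd h hj⟩
  choose t ht1 ht2 ht3 using h1
  let T : Finset Lb := (Finset.range (φ.length + 1)).image fun j => (0, j, t j)
  have hT : ∀ x ∈ T, x ∈ vs φ p q := by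
    intro x hx
    simp only [T, Finset.mem_image, Finset.mem_range] at hx
    obtain ⟨j, hj, rfl⟩ := hx
    rw [mem_vs]
    refine Or.inl ⟨rfl, ?_⟩
    rcases Nat.lt_or_ge j φ.length with hj2 | hj2
    · exact Or.inl ⟨hj2, ht1 j hj2⟩
    · have : j = φ.length := by omega
      exact Or.inr ⟨this, ht2 j this⟩
  refine ⟨pre V c T, ?_, ?_, ?_⟩
  · intro u hu v hv huv
    simp only [pre, T, Finset.mem_filter, Finset.mem_univ, true_and, Finset.mem_image,
      Finset.mem_range] at hu hv
    obtain ⟨j, hj, hj'⟩ := hu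
    obtain ⟨k, hk, hk'⟩ := hv
    rw [h.adj, ← hj', ← hk'] at huv
    unfold ad at huv
    simp only [ne_eq, not_true_eq_false, decide_false, Bool.false_or, and_self, decide_true,
      Bool.true_and, Bool.or_eq_true, Bool.and_eq_true, decide_eq_true_eq, Prod.mk.injEq,
      true_and, not_and] at huv
    rcases huv with ⟨h1, h2⟩ | h1 | ⟨h1, -⟩
    · rw [h1] at h2
      exact h2 rfl
    · unfold confl at h1
      rcases Nat.lt_or_ge j φ.length with hj2 | hj2
      · rcases Nat.lt_or_ge k φ.length with hk2 | hk2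
        · simp only [List.getElem?_eq_getElem hj2, List.getElem?_eq_getElem hk2, Option.elim]
            at h1
          unfold compl at h1
          simp only [Bool.and_eq_true, decide_eq_true_eq] at h1
          apply h1.2
          rw [← ht3 j hj2, ← ht3 k hk2, h1.1]
        · rw [List.getElem?_eq_none (i := k) (by omega), List.getElem?_eq_getElem hj2] at h1
          simp at h1
      · rw [List.getElem?_eq_none (i := j) (by omega)] at h1
        simp at h1
    · omega
  · intro v hv
    simp only [pre, T, Finset.mem_filter, Finset.mem_univ, true_and, Finset.mem_image,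
      Finset.mem_range] at hv
    obtain ⟨k, hk, hk'⟩ := hv
    rw [← hk']
  · rw [h.card_pre hT]
    simp only [T]
    rw [Finset.card_image_of_injective _ (fun a b hab => by simpa using (Prod.ext_iff.1 (Prod.ext_iff.1 hab).2).1),
      Finset.card_range]

theorem Rep.nucleus_eq (h : Rep G c φ p q) : nucleus G = ∅ := by
  let TA : Finset Lb := ((Finset.range (φ.length + 1)) ×ˢ (Finset.range 3)).image
    (fun x => (0, x.1, x.2))
  -- the vertices of kind two
  let C : Finset V := kind V c 2
  let TC : Finset Lb := (Finset.range (3 * φ.length + 2 + p * q)).image fun i => (2, i, 0)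
  have hTC : ∀ x ∈ TC, x ∈ vs φ p q := by
    intro x hx
    simp only [TC, Finset.mem_image, Finset.mem_range] at hx
    obtain ⟨j, hj, rfl⟩ := hx
    rw [mem_vs]
    exact Or.inr (Or.inr ⟨rfl, hj, rfl⟩)
  have hC1 : 3 * φ.length + 2 + p * q ≤ C.card := by
    have h1 := h.card_pre hTC
    have h2 : TC.card = 3 * φ.length + 2 + p * q := by
      simp only [TC]
      rw [Finset.card_image_of_injective _ (fun a b hab => by simpa using hab),
        Finset.card_range]
    rw [← h2, ← h1]
    apply Finset.card_le_card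
    intro v hv
    simp only [pre, TC, Finset.mem_filter, Finset.mem_univ, true_and, Finset.mem_image,
      Finset.mem_range] at hv
    obtain ⟨k, hk, hk'⟩ := hv
    simp only [C, kind, Finset.mem_filter, Finset.mem_univ, true_and]
    rw [← hk']
  -- the other vertices
  let TO : Finset Lb := ((Finset.range φ.length ×ˢ Finset.range 3).image
      (fun x => ((0, x.1, x.2) : Lb))) ∪ ({((0, φ.length, 0) : Lb)} ∪
      ((Finset.range p ×ˢ Finset.range q).image (fun x => ((1, x.1, x.2) : Lb))))
  have hTO : TO.card ≤ 3 * φ.length + 1 + p * q := by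
    simp only [TO]
    refine (Finset.card_union_le _ _).trans ?_
    have h1 := Finset.card_union_le {((0, φ.length, 0) : Lb)}
      ((Finset.range p ×ˢ Finset.range q).image (fun x => ((1, x.1, x.2) : Lb)))
    have h2 : ((Finset.range φ.length ×ˢ Finset.range 3).image
      (fun x => ((0, x.1, x.2) : Lb))).card ≤ φ.length * 3 := by
      refine Finset.card_image_le.trans ?_
      rw [Finset.card_product, Finset.card_range, Finset.card_range]
    have h3 : ((Finset.range p ×ˢ Finset.range q).image (fun x => ((1, x.1, x.2) : Lb))).card ≤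
        p * q := by
      refine Finset.card_image_le.trans ?_
      rw [Finset.card_product, Finset.card_range, Finset.card_range]
    rw [Finset.card_singleton] at h1
    omega
  have hC2 : Cᶜ.card ≤ 3 * φ.length + 1 + p * q := by
    refine le_trans ?_ hTO
    rw [← Finset.card_image_of_injective _ h.inj]
    apply Finset.card_le_card
    intro x hx
    rw [Finset.mem_image] at hx
    obtain ⟨v, hv, rfl⟩ := hx
    simp only [C, kind, Finset.mem_compl, Finset.mem_filter, Finset.mem_univ, true_and] at hv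
    have h1 := (h.mem (c v)).2 ⟨v, rfl⟩
    rw [mem_vs] at h1
    simp only [TO, Finset.mem_union, Finset.mem_image, Finset.mem_product, Finset.mem_range,
      Finset.mem_singleton, Prod.exists]
    rcases h1 with ⟨h1, h2 | h2⟩ | ⟨h1, h2⟩ | ⟨h1, h2⟩
    · exact Or.inl ⟨_, _, h2, Prod.ext h1.symm rfl⟩
    · exact Or.inr (Or.inl (Prod.ext h1 (Prod.ext h2.1 h2.2)))
    · exact Or.inr (Or.inr ⟨_, _, h2, Prod.ext h1.symm rfl⟩)
    · exact absurd h1 hv
  refine nucleus_empty (C := C) ?_ (by omega) ?_
  · intro u hu v hv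
    simp only [C, kind, Finset.mem_filter, Finset.mem_univ, true_and] at hu
    exact h.adj_two hu hv
  · -- at least three vertices
    obtain ⟨w, hw⟩ := (h.mem (0, φ.length, 0)).1 (by
      rw [mem_vs]; exact Or.inl ⟨rfl, Or.inr ⟨rfl, rfl⟩⟩)
    have hwC : w ∉ C := by
      simp only [C, kind, Finset.mem_filter, Finset.mem_univ, true_and]
      rw [hw]
      simp
    have h5 : (insert w C).card ≤ Fintype.card V := Finset.card_le_univ _
    rw [Finset.card_insert_of_notMem hwC] at h5
    omega

theorem exists_max (G : SimpleGraph V) : ∃ I, IsMaxIndep G I := by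
  obtain ⟨I, hI, hmax⟩ := Finset.exists_max_image (Finset.univ.filter fun I : Finset V => Indep G I)
    Finset.card ⟨∅, by
      simp only [Finset.mem_filter, Finset.mem_univ, true_and]
      exact fun u hu => by simp at hu⟩
  simp only [Finset.mem_filter, Finset.mem_univ, true_and] at hI hmax
  exact ⟨I, hI, hmax⟩

/-- The first reduction: `p = m + 1`, `q = 1`. -/
theorem Rep.correct1 (h : Rep G c φ (φ.length + 1) 1) (hne : φ ≠ []) :
    Satis φ ↔ core G = nucleus G := by
  have hm : 1 ≤ φ.length := by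
    rcases φ with _ | _
    · exact absurd rfl hne
    · simp
  rw [h.nucleus_eq]
  constructor
  · intro hs
    obtain ⟨I, hI, hI0, hIc⟩ := h.exists_A hs
    have hle : ∀ J, Indep G J → J.card ≤ φ.length + 1 := by
      intro J hJ
      obtain ⟨k, hk, hJk⟩ := h.indep_kind hJ
      rcases hk with rfl | rfl | rfl
      · exact h.card_zero hJ hJk
      · exact h.card_one hJ hJk
      · exact (h.card_two hJ hJk).trans (by omega)
    have h1 : IsMaxIndep G I := ⟨hI, fun J hJ => hIc ▸ hle J hJ⟩
    have h2 : IsMaxIndep G (pre V c (Bs (φ.length + 1) 0)) :=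
      ⟨h.indep_Bs 0, fun J hJ => by rw [h.card_pre_Bs one_pos]; exact hle J hJ⟩
    ext v
    simp only [core, Set.mem_ofPred_eq, Set.mem_empty_iff_false, iff_false]
    intro hv
    have h3 := hI0 v (hv I h1)
    have h4 := hv _ h2
    simp only [pre, Bs, Finset.mem_filter, Finset.mem_univ, true_and, Finset.mem_image,
      Finset.mem_range] at h4
    obtain ⟨j, -, hj⟩ := h4
    rw [← hj] at h3
    simp at h3
  · intro hcore
    by_contra hun
    obtain ⟨w, hw⟩ := (h.mem (1, 0, 0)).1 (by
      rw [mem_vs]; exact Or.inr (Or.inl ⟨rfl, by simp, by simp⟩))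
    have hwc : w ∈ core G := by
      intro I hI
      have h1 : φ.length + 1 ≤ I.card := by
        have := hI.2 _ (h.indep_Bs 0)
        rwa [h.card_pre_Bs one_pos] at this
      obtain ⟨k, hk, hIk⟩ := h.indep_kind hI.1
      rcases hk with rfl | rfl | rfl
      · exact absurd (h.satis hI.1 hIk h1) hun
      · obtain ⟨v, hv, hv2⟩ := h.full_one hI.1 hIk h1 (j := 0) (by omega)
        have h3 := (h.mem (c v)).2 ⟨v, rfl⟩
        rw [mem_vs] at h3
        have h4 := hIk v hv
        have h5 : c v = c w := by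
          rw [hw]
          exact Prod.ext h4 (Prod.ext hv2 (by simp only; omega))
        rwa [← h.inj h5]
      · have := h.card_two hI.1 hIk
        omega
    rw [hcore] at hwc
    exact hwc

/-- The second reduction: `p = m`, `q = 2`. -/
theorem Rep.correct2 (h : Rep G c φ φ.length 2) (hne : φ ≠ []) :
    Satis φ ↔ ¬ core G = nucleus G := by
  have hm : 1 ≤ φ.length := by
    rcases φ with _ | _
    · exact absurd rfl hne
    · simp
  rw [h.nucleus_eq]
  constructor
  · intro hs hcore
    obtain ⟨I0, hI0, -, hI0c⟩ := h.exists_A hs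
    obtain ⟨w, hw⟩ := (h.mem (0, φ.length, 0)).1 (by
      rw [mem_vs]; exact Or.inl ⟨rfl, Or.inr ⟨rfl, rfl⟩⟩)
    have hwc : w ∈ core G := by
      intro I hI
      have h1 : φ.length + 1 ≤ I.card := hI0c ▸ hI.2 _ hI0
      obtain ⟨k, hk, hIk⟩ := h.indep_kind hI.1
      rcases hk with rfl | rfl | rfl
      · obtain ⟨v, hv, hv2⟩ := h.full_zero hI.1 hIk h1 (j := φ.length) le_rfl
        have h3 := (h.mem (c v)).2 ⟨v, rfl⟩
        rw [mem_vs] at h3
        have h4 := hIk v hv
        have h5 : c v = c w := by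
          rw [hw]
          exact Prod.ext h4 (Prod.ext hv2 (by simp only; omega))
        rwa [← h.inj h5]
      · have := h.card_one hI.1 hIk
        omega
      · have := h.card_two hI.1 hIk
        omega
    rw [hcore] at hwc
    exact hwc
  · intro hcore
    by_contra hun
    apply hcore
    have hle : ∀ J, Indep G J → J.card ≤ φ.length := by
      intro J hJ
      obtain ⟨k, hk, hJk⟩ := h.indep_kind hJ
      rcases hk with rfl | rfl | rfl
      · by_contra hcon
        exact hun (h.satis hJ hJk (by omega))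
      · exact h.card_one hJ hJk
      · exact (h.card_two hJ hJk).trans (by omega)
    have h2 : ∀ s < 2, IsMaxIndep G (pre V c (Bs φ.length s)) := fun s hs =>
      ⟨h.indep_Bs s, fun J hJ => by rw [h.card_pre_Bs hs]; exact hle J hJ⟩
    ext v
    simp only [core, Set.mem_ofPred_eq, Set.mem_empty_iff_false, iff_false]
    intro hv
    have h3 := hv _ (h2 0 (by norm_num))
    have h4 := hv _ (h2 1 (by norm_num))
    simp only [pre, Bs, Finset.mem_filter, Finset.mem_univ, true_and, Finset.mem_image,
      Finset.mem_range] at h3 h4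
    obtain ⟨j, -, hj⟩ := h3
    obtain ⟨k, -, hk⟩ := h4
    rw [← hj] at hk
    simp at hk

end Main

end Pool.Agent.Helper15K9.Core
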