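import Pool.Agent.Helper15K9.Core.Graph
import Pool.Agent.H671R2.GraphEnc
import Pool.Agent.H671R2.PolyAuto
import Pool.Agent.NPC.Sat2
import Pool.Agent.NPC.Dec

/-!
# The reductions are computable in polynomial time
-/

set_option autoImplicit false

namespace Pool.Agent.Helper15K9.Core

open Pool.Agent.NPC Pool.Agent.NPC.R671

theorem coreEqNucleus_iff {n : ℕ} (G : SimpleGraph (Fin n)) :
    CoreEqNucleus (adjMatrix G) ↔ core G = nucleus G := by
  constructor
  · rintro ⟨n', G', h, h2⟩
    have hl : n' = n := by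
      have := congrArg List.length h
      simpa [adjMatrix] using this
    subst hl
    rw [← adjMatrix_inj h]
    exact h2
  · intro h
    exact ⟨n, G, rfl, h⟩

/-- The matrix of the reduction. -/
def red (φ : List C3) (p q : ℕ) : List (List Bool) :=
  (vs φ p q).map fun u => (vs φ p q).map fun w => ad φ u w

theorem vs_nodup (φ : List C3) (p q : ℕ) : (vs φ p q).Nodup := by
  unfold vs
  have h1 : ∀ (k : ℕ) (a b : ℕ), ((List.range a).flatMap
      (fun j => (List.range b).map (fun t => ((k, j, t) : Lb)))).Nodup := by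
    intro k a b
    rw [List.nodup_flatMap]
    refine ⟨fun j _ => List.nodup_range.map (fun x y h => by simpa using h), ?_⟩
    refine List.nodup_range.imp_of_mem ?_
    intro x y _ _ hxy
    simp only [Function.onFun]
    intro z hz1 hz2
    rw [List.mem_map] at hz1 hz2
    obtain ⟨_, _, rfl⟩ := hz1
    obtain ⟨_, _, h2⟩ := hz2
    simp only [Prod.mk.injEq, true_and] at h2
    exact hxy h2.1.symm
  rw [List.nodup_append']
  refine ⟨h1 0 _ _, ?_, ?_⟩
  · rw [List.nodup_append']
    refine ⟨List.nodup_singleton _, ?_, ?_⟩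
    · rw [List.nodup_append']
      refine ⟨h1 1 _ _, List.nodup_range.map (fun x y h => by simpa using h), ?_⟩
      intro z hz1 hz2
      simp only [List.mem_flatMap, List.mem_map] at hz1 hz2
      obtain ⟨_, _, _, _, rfl⟩ := hz1
      obtain ⟨_, _, h⟩ := hz2
      simp at h
    · intro z hz1 hz2
      simp only [List.mem_singleton, List.mem_append, List.mem_flatMap, List.mem_map] at hz1 hz2
      subst hz1
      rcases hz2 with ⟨_, _, _, _, h⟩ | ⟨_, _, h⟩ <;> simp at h
  · intro z hz1 hz2
    simp only [List.mem_singleton, List.mem_append, List.mem_flatMap, List.mem_map,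
      List.mem_range] at hz1 hz2
    obtain ⟨j, hj, t, ht, rfl⟩ := hz1
    rcases hz2 with h | ⟨_, _, _, _, h⟩ | ⟨_, _, h⟩
    · simp only [Prod.mk.injEq, true_and] at h
      omega
    · simp at h
    · simp at h

theorem rep (φ : List C3) (p q : ℕ) :
    Rep (listGraph (vs φ p q) (ad φ) (ad_symm φ) (ad_irrefl φ))
      (fun i : Fin (vs φ p q).length => (vs φ p q)[i]) φ p q where
  inj := by
    intro i j hij
    exact Fin.ext ((List.Nodup.getElem_inj_iff (vs_nodup φ p q)).1 hij)
  mem := by
    intro x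
    constructor
    · intro hx
      obtain ⟨i, hi, hi'⟩ := List.getElem_of_mem hx
      exact ⟨⟨i, hi⟩, hi'⟩
    · rintro ⟨i, rfl⟩
      exact List.getElem_mem _
  adj := fun _ _ => Iff.rfl

theorem satis_iff (φ : List C3) : SAT3 φ ↔ Satis φ := by
  unfold SAT3 Sat3V Satis
  refine exists_congr fun τ => ?_
  constructor
  · intro h j hj
    rcases h φ[j] (List.getElem_mem hj) with h | h | h
    · exact ⟨0, by norm_num, h⟩
    · exact ⟨1, by norm_num, h⟩
    · exact ⟨2, by norm_num, h⟩
  · intro h c hc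
    obtain ⟨j, hj, rfl⟩ := List.getElem_of_mem hc
    obtain ⟨t, ht, h2⟩ := h j hj
    interval_cases t
    · exact Or.inl h2
    · exact Or.inr (Or.inl h2)
    · exact Or.inr (Or.inr h2)

theorem red_correct1 {φ : List C3} (hne : φ ≠ []) :
    SAT3 φ ↔ CoreEqNucleus (red φ (φ.length + 1) 1) := by
  rw [satis_iff, (rep φ (φ.length + 1) 1).correct1 hne, ← coreEqNucleus_iff,
    adjMatrix_listGraph]
  rfl

theorem red_correct2 {φ : List C3} (hne : φ ≠ []) :
    SAT3 φ ↔ ¬ CoreEqNucleus (red φ φ.length 2) := by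
  rw [satis_iff, (rep φ φ.length 2).correct2 hne, ← coreEqNucleus_iff,
    adjMatrix_listGraph]
  rfl

section PolyTime

open Poly

theorem pick_poly : Poly (fun z : C3 × ℕ => pick z.1 z.2) := by
  unfold pick
  fun_prop

theorem compl_poly : Poly (fun z : (Bool × ℕ) × (Bool × ℕ) => compl z.1 z.2) := by
  unfold compl
  fun_prop

theorem confl_poly : Poly (fun z : List C3 × (ℕ × ℕ) × (ℕ × ℕ) => confl z.1 z.2.1 z.2.2) := by
  unfold confl
  have h1 : Poly (fun w : ((List C3 × (ℕ × ℕ) × (ℕ × ℕ)) × C3) × C3 =>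
      compl (pick w.1.2 w.1.1.2.1.2) (pick w.2 w.1.1.2.2.2)) :=
    compl_poly.comp (pair (pick_poly.comp (pair (by fun_prop) (by fun_prop)))
      (pick_poly.comp (pair (by fun_prop) (by fun_prop))))
  have h2 : Poly (fun w : (List C3 × (ℕ × ℕ) × (ℕ × ℕ)) × C3 =>
      (w.1.1[w.1.2.2.1]?).elim false fun d => compl (pick w.2 w.1.2.1.2) (pick d w.1.2.2.2)) :=
    optElim (h := fun (w : (List C3 × (ℕ × ℕ) × (ℕ × ℕ)) × C3) d =>
      compl (pick w.2 w.1.2.1.2) (pick d w.1.2.2.2)) (by fun_prop) (by fun_prop) h1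
  exact optElim (h := fun (w : List C3 × (ℕ × ℕ) × (ℕ × ℕ)) c =>
    (w.1[w.2.2.1]?).elim false fun d => compl (pick c w.2.1.2) (pick d w.2.2.2))
      (by fun_prop) (by fun_prop) h2

theorem ad_poly : Poly (fun z : (List C3 × Lb) × Lb => ad z.1.1 z.1.2 z.2) := by
  have h1 : Poly (fun z : (List C3 × Lb) × Lb => confl z.1.1 z.1.2.2 z.2.2) :=
    confl_poly.comp (f := fun z : (List C3 × Lb) × Lb => (z.1.1, z.1.2.2, z.2.2)) (by fun_prop)
  unfold ad
  fun_prop

theorem vs_poly {p : List C3 → ℕ} (q : ℕ) (hp : UPoly p) :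
    Poly (fun φ : List C3 => vs φ (p φ) q) := by
  have hm : UPoly (fun φ : List C3 => φ.length) := UPoly.length Poly.id
  have h1 : Poly (fun φ : List C3 => (List.range φ.length).flatMap
      (fun j => (List.range 3).map (fun t => ((0, j, t) : Lb)))) :=
    flatMap (F := fun (_ : List C3) j => (List.range 3).map (fun t => ((0, j, t) : Lb))) hm.range
      (by fun_prop)
  have h2 : Poly (fun φ : List C3 => (List.range (p φ)).flatMap
      (fun j => (List.range q).map (fun s => ((1, j, s) : Lb)))) :=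
    flatMap (F := fun (_ : List C3) j => (List.range q).map (fun s => ((1, j, s) : Lb))) hp.range
      (by fun_prop)
  have h3 : UPoly (fun φ : List C3 => 3 * φ.length + 2 + p φ * q) :=
    (((UPoly.const 3).mul hm).add (UPoly.const 2)).add (hp.mul (UPoly.const q))
  have h4 : Poly (fun φ : List C3 => (List.range (3 * φ.length + 2 + p φ * q)).map
      (fun i => ((2, i, 0) : Lb))) :=
    map (F := fun (_ : List C3) i => ((2, i, 0) : Lb)) h3.range (by fun_prop)
  unfold vs
  exact append h1 (append (by fun_prop) (append h2 h4))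

theorem red_poly {p : List C3 → ℕ} (q : ℕ) (hp : UPoly p) :
    Poly (fun φ : List C3 => red φ (p φ) q) := by
  have h1 := vs_poly q hp
  have h2 : Poly (fun z : List C3 × Lb => (vs z.1 (p z.1) q).map fun w => ad z.1 z.2 w) :=
    map (F := fun (z : List C3 × Lb) w => ad z.1 z.2 w) (h1.comp (fst id)) ad_poly
  exact map (F := fun (φ : List C3) u => (vs φ (p φ) q).map fun w => ad φ u w) h1 h2

end PolyTime

theorem hardPr1 : HardPr (fun _ => True) CoreEqNucleus :=
  hardPr_SAT3b.trans (red_poly (p := fun φ => φ.length + 1) 1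
    ((UPoly.length Poly.id).add (UPoly.const 1))) (fun _ _ => trivial)
    (fun _ h => red_correct1 h.2.2)

theorem hardPr2 : HardPr (fun _ => True) (fun M => ¬ CoreEqNucleus M) :=
  hardPr_SAT3b.trans (red_poly (p := fun φ => φ.length) 2
    (UPoly.length Poly.id)) (fun _ _ => trivial)
    (fun _ h => red_correct2 h.2.2)

theorem npHard : NPHardP CoreEqNucleus := hardPr1.toHardI.toNPHardP

theorem coNPHard : CoNPHardP CoreEqNucleus := hardPr2.toHardI.toCoNPHardP

end Pool.Agent.Helper15K9.Core
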